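import Mathlib

/-! Project GV (MP_d68153_an): helical Gavrilov flows. Definitions and the statements of the parts. -/

open Set
open scoped ContDiff

namespace Pool.Agent.W743.GV

/-- Euclidean three space -/
abbrev E3 := EuclideanSpace ℝ (Fin 3)

noncomputable section

/-- the interval of radius d around 1 -/
def J (d : ℝ) : Set ℝ := Ioo (1 - d) (1 + d)

/-- the square of r times the radial velocity, as a function of s = r^2 and the pressure P -/
def MM (b f : ℝ → ℝ) (s P : ℝ) : ℝ :=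
  s * (3 * P - (b P - s) ^ 2) - (f P - (b P - s)) ^ 2

/-- the function Q(s,P) -/
def QQ (b f : ℝ → ℝ) (s P : ℝ) : ℝ :=
  s * (b P - s) - (f P - (b P - s))

/-- derivative of MM in s -/
def MS (b f : ℝ → ℝ) (s P : ℝ) : ℝ :=
  3 * P - (b P - s) ^ 2 + 2 * s * (b P - s) - 2 * (f P - (b P - s))

/-- derivative of MM in P -/
def MP (b f : ℝ → ℝ) (s P : ℝ) : ℝ :=
  s * (3 - 2 * (b P - s) * deriv b P) - 2 * (f P - (b P - s)) * (deriv f P - deriv b P)

/-- derivative of QQ in P -/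
def QP (b f : ℝ → ℝ) (s P : ℝ) : ℝ :=
  s * deriv b P - (deriv f P - deriv b P)

/-- the two functions b, f of the pressure, solutions of a linear system for b', f' -/
structure Data (d : ℝ) (b f : ℝ → ℝ) : Prop where
  hd : 0 < d
  hd1 : d ≤ 1 / 2
  b1 : b 1 = 1
  f1 : f 1 = 0
  cb : ContDiffOn ℝ ∞ b (J d)
  cf : ContDiffOn ℝ ∞ f (J d)
  eA : ∀ P ∈ J d, 6 * P * deriv b P - 2 * f P * deriv f P = -(b P + 1)
  eB : ∀ P ∈ J d, 2 * (3 * (b P + 1) * P - f P ^ 2) * deriv b P - 6 * P * deriv f P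
        = -(3 * P + f P)
  Mpos : ∀ s ∈ J d, ∀ P ∈ J d, 0 < MM b f s P

/-- the linear form with coefficients a, b, c on Euclidean three space -/
def lf (a b c : ℝ) : E3 →L[ℝ] ℝ :=
  a • (EuclideanSpace.proj 0 : E3 →L[ℝ] ℝ) + b • (EuclideanSpace.proj 1 : E3 →L[ℝ] ℝ)
    + c • (EuclideanSpace.proj 2 : E3 →L[ℝ] ℝ)

/-- r squared -/
def ss (x : E3) : ℝ := x 0 ^ 2 + x 1 ^ 2

/-- the gradient of the pressure, as a linear form, in terms of the point and the pressure -/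
def Lp (b f : ℝ → ℝ) (x : E3) (P : ℝ) : E3 →L[ℝ] ℝ :=
  lf ((-2 * QQ b f (ss x) P * x 0 + 2 * √(MM b f (ss x) P) * x 1) / ss x)
     ((-2 * QQ b f (ss x) P * x 1 - 2 * √(MM b f (ss x) P) * x 0) / ss x)
     (2 * √(MM b f (ss x) P))

/-- a local pressure function -/
structure Sol (d : ℝ) (b f : ℝ → ℝ) (U : Set E3) (p : E3 → ℝ) : Prop where
  op : IsOpen U
  co : IsConnected U
  pt : (!₂[1, 0, 0] : E3) ∈ U
  p1 : p !₂[1, 0, 0] = 1
  sJ : ∀ x ∈ U, ss x ∈ J d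
  pJ : ∀ x ∈ U, p x ∈ J d
  cp : ContDiffOn ℝ ∞ p U
  dp : ∀ x ∈ U, HasFDerivAt p (Lp b f x (p x)) x

/-- w = r times the azimuthal velocity -/
def wv (b f : ℝ → ℝ) (x : E3) (P : ℝ) : ℝ := f P - (b P - ss x)

/-- the velocity in terms of the point and the pressure -/
def VV (b f : ℝ → ℝ) (x : E3) (P : ℝ) : E3 :=
  !₂[(x 0 * √(MM b f (ss x) P) - x 1 * wv b f x P) / ss x,
     (x 1 * √(MM b f (ss x) P) + x 0 * wv b f x P) / ss x,
     b P - ss x]

/-- differential of r squared -/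
def Ls (x : E3) : E3 →L[ℝ] ℝ := lf (2 * x 0) (2 * x 1) 0

/-- differential of the square root of M -/
def Lr (b f : ℝ → ℝ) (x : E3) (P : ℝ) : E3 →L[ℝ] ℝ :=
  (1 / (2 * √(MM b f (ss x) P))) • (MS b f (ss x) P • Ls x + MP b f (ss x) P • Lp b f x P)

/-- differential of w -/
def Lw (b f : ℝ → ℝ) (x : E3) (P : ℝ) : E3 →L[ℝ] ℝ :=
  (deriv f P - deriv b P) • Lp b f x P + Ls x

/-- differential of the first component of the velocity -/
def L0 (b f : ℝ → ℝ) (x : E3) (P : ℝ) : E3 →L[ℝ] ℝ :=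
  (1 / ss x) • (√(MM b f (ss x) P) • lf 1 0 0 + x 0 • Lr b f x P - wv b f x P • lf 0 1 0
      - x 1 • Lw b f x P)
    - ((x 0 * √(MM b f (ss x) P) - x 1 * wv b f x P) / (ss x) ^ 2) • Ls x

/-- differential of the second component of the velocity -/
def L1 (b f : ℝ → ℝ) (x : E3) (P : ℝ) : E3 →L[ℝ] ℝ :=
  (1 / ss x) • (√(MM b f (ss x) P) • lf 0 1 0 + x 1 • Lr b f x P + wv b f x P • lf 1 0 0
      + x 0 • Lw b f x P)
    - ((x 1 * √(MM b f (ss x) P) + x 0 * wv b f x P) / (ss x) ^ 2) • Ls x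

/-- differential of the third component of the velocity -/
def L2 (b f : ℝ → ℝ) (x : E3) (P : ℝ) : E3 →L[ℝ] ℝ :=
  deriv b P • Lp b f x P - Ls x

/-- cross product -/
def crs (n v : E3) : E3 :=
  !₂[n 1 * v 2 - n 2 * v 1, n 2 * v 0 - n 0 * v 2, n 0 * v 1 - n 1 * v 0]

/-- symmetry of (u,p) on U under all rotations about some line -/
def IsAxisymmetric (U : Set E3) (u : E3 → E3) (p : E3 → ℝ) : Prop :=
  ∃ c n : E3, n ≠ 0 ∧
    ∀ A ∈ Matrix.specialOrthogonalGroup (Fin 3) ℝ, Matrix.toEuclideanLin A n = n →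
      ∀ x ∈ U, c + Matrix.toEuclideanLin A (x - c) ∈ U →
        p (c + Matrix.toEuclideanLin A (x - c)) = p x ∧
        u (c + Matrix.toEuclideanLin A (x - c)) = Matrix.toEuclideanLin A (u x)

/-! ### The parts -/

/-- ODE: existence of b, f -/
def S_ODE : Prop := ∃ d b f, Data d b f

/-- ID: the closedness identity -/
def S_ID : Prop := ∀ d b f, Data d b f → ∀ s ∈ J d, ∀ P ∈ J d,
  s * MS b f s P - QQ b f s P * MP b f s P + 2 * MM b f s P * QP b f s P = 0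

/-- the potential -/
def IsPot (d : ℝ) (b f : ℝ → ℝ) (Z : ℝ × ℝ → ℝ) : Prop :=
  ContDiffOn ℝ ∞ Z (J d ×ˢ J d) ∧ ∀ z ∈ J d ×ˢ J d,
    HasFDerivAt Z ((QQ b f z.1 z.2 / (2 * z.1 * √(MM b f z.1 z.2))) • ContinuousLinearMap.fst ℝ ℝ ℝ
      + (1 / (2 * √(MM b f z.1 z.2))) • ContinuousLinearMap.snd ℝ ℝ ℝ) z

/-- POT: Poincare lemma -/
def S_POT : Prop := ∀ d b f, Data d b f → ∃ Z, IsPot d b f Z

/-- INV: implicit function theorem, the third coordinate is replaced by the value of g -/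
def S_INV : Prop := ∀ (O : Set E3) (g : E3 → ℝ) (y : E3), IsOpen O → y ∈ O →
  ContDiffOn ℝ ∞ g O → fderiv ℝ g y (EuclideanSpace.single 2 1) ≠ 0 →
  ∃ (U : Set E3) (p : E3 → ℝ), IsOpen U ∧ IsConnected U ∧ (!₂[y 0, y 1, g y] : E3) ∈ U ∧
    p !₂[y 0, y 1, g y] = y 2 ∧ ContDiffOn ℝ ∞ p U ∧
    ∀ x ∈ U, (!₂[x 0, x 1, p x] : E3) ∈ O ∧ g !₂[x 0, x 1, p x] = x 2

/-- IMP: the pressure function -/
def S_IMP : Prop := ∀ d b f Z, Data d b f → IsPot d b f Z → ∃ U p, Sol d b f U p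

/-- DU: differentials of the components of the velocity -/
def S_DU : Prop := ∀ d b f U p, Data d b f → Sol d b f U p → ∀ x ∈ U,
  HasFDerivAt (fun y : E3 => (VV b f y (p y)) 0) (L0 b f x (p x)) x ∧
  HasFDerivAt (fun y : E3 => (VV b f y (p y)) 1) (L1 b f x (p x)) x ∧
  HasFDerivAt (fun y : E3 => (VV b f y (p y)) 2) (L2 b f x (p x)) x

/-- CU: smoothness of the velocity -/
def S_CU : Prop := ∀ d b f U p, Data d b f → Sol d b f U p →
  ContDiffOn ℝ ∞ (fun y : E3 => VV b f y (p y)) U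

/-- MOM: momentum equation and orthogonality, pure algebra -/
def S_MOM : Prop := ∀ d b f, Data d b f → ∀ (x : E3) (P : ℝ), ss x ∈ J d → P ∈ J d →
  L0 b f x P (VV b f x P) + Lp b f x P (EuclideanSpace.single 0 1) = 0 ∧
  L1 b f x P (VV b f x P) + Lp b f x P (EuclideanSpace.single 1 1) = 0 ∧
  L2 b f x P (VV b f x P) + Lp b f x P (EuclideanSpace.single 2 1) = 0 ∧
  Lp b f x P (VV b f x P) = 0

/-- DIV: divergence, pure algebra -/
def S_DIV : Prop := ∀ d b f, Data d b f → ∀ (x : E3) (P : ℝ), ss x ∈ J d → P ∈ J d →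
  L0 b f x P (EuclideanSpace.single 0 1) + L1 b f x P (EuclideanSpace.single 1 1)
    + L2 b f x P (EuclideanSpace.single 2 1) = 0

/-- PDE: the flow equations -/
def S_PDE : Prop := ∀ d b f U p, Data d b f → Sol d b f U p → ∀ x ∈ U,
  fderiv ℝ (fun y : E3 => VV b f y (p y)) x (VV b f x (p x)) + gradient p x = 0 ∧
  (∑ i, (fderiv ℝ (fun y : E3 => VV b f y (p y)) x (EuclideanSpace.single i 1)) i) = 0 ∧
  inner ℝ (VV b f x (p x)) (gradient p x) = 0 ∧ gradient p x ≠ 0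

/-- ROT: Rodrigues rotation -/
def S_ROT : Prop := ∀ n : E3, ‖n‖ = 1 → ∀ t : ℝ, ∃ A ∈ Matrix.specialOrthogonalGroup (Fin 3) ℝ,
  Matrix.toEuclideanLin A n = n ∧ ∀ v : E3, Matrix.toEuclideanLin A v
    = Real.cos t • v + Real.sin t • crs n v + ((1 - Real.cos t) * inner ℝ n v) • n

/-- AXI: infinitesimal form of the axial symmetry of the pressure -/
def S_AXI : Prop := ∀ (U : Set E3) (u : E3 → E3) (p : E3 → ℝ), IsOpen U →
  (∀ x ∈ U, DifferentiableAt ℝ p x) → IsAxisymmetric U u p →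
  ∃ c n : E3, n ≠ 0 ∧ ∀ x ∈ U, fderiv ℝ p x (crs n (x - c)) = 0

/-- HEL: the helix argument -/
def S_HEL : Prop := ∀ d b f U p, Data d b f → Sol d b f U p →
  ∀ c n : E3, (∀ x ∈ U, fderiv ℝ p x (crs n (x - c)) = 0) → n = 0

end

end Pool.Agent.W743.GV
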