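import Mathlib
import Pool.Agent.W743.GV.Stm

open Set
open scoped ContDiff

namespace Pool.Agent.W743.GV

theorem lf_ap (a b c : ℝ) (v : E3) : lf a b c v = a * v 0 + b * v 1 + c * v 2 := by
  unfold lf
  simp

theorem t_DIV (hID : S_ID) : S_DIV := by
  intro d b f hD x P hs hP
  have hM : 0 < MM b f (ss x) P := hD.Mpos _ hs _ hP
  have hI := hID d b f hD _ hs _ hP
  have hs0 : 0 < ss x := by
    have h1 := hs.1
    have h2 := hD.hd1
    linarith
  have hr0 : 0 < √(MM b f (ss x) P) := Real.sqrt_pos.mpr hM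
  have hr2 : √(MM b f (ss x) P) ^ 2 = MM b f (ss x) P := Real.sq_sqrt hM.le
  have hsx : ss x = x 0 ^ 2 + x 1 ^ 2 := rfl
  rw [← hr2] at hI
  simp only [L0, L1, L2, Lr, Lw, Ls, Lp, ContinuousLinearMap.smul_apply,
    ContinuousLinearMap.add_apply, ContinuousLinearMap.sub_apply, smul_eq_mul, lf_ap]
  have e00 : (EuclideanSpace.single (0 : Fin 3) (1 : ℝ) : E3) 0 = 1 := by simp
  have e01 : (EuclideanSpace.single (0 : Fin 3) (1 : ℝ) : E3) 1 = 0 := by simp
  have e02 : (EuclideanSpace.single (0 : Fin 3) (1 : ℝ) : E3) 2 = 0 := by simp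
  have e10 : (EuclideanSpace.single (1 : Fin 3) (1 : ℝ) : E3) 0 = 0 := by simp
  have e11 : (EuclideanSpace.single (1 : Fin 3) (1 : ℝ) : E3) 1 = 1 := by simp
  have e12 : (EuclideanSpace.single (1 : Fin 3) (1 : ℝ) : E3) 2 = 0 := by simp
  have e20 : (EuclideanSpace.single (2 : Fin 3) (1 : ℝ) : E3) 0 = 0 := by simp
  have e21 : (EuclideanSpace.single (2 : Fin 3) (1 : ℝ) : E3) 1 = 0 := by simp
  have e22 : (EuclideanSpace.single (2 : Fin 3) (1 : ℝ) : E3) 2 = 1 := by simp
  rw [e00, e01, e02, e10, e11, e12, e20, e21, e22]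
  have hQP : QP b f (ss x) P = ss x * deriv b P - (deriv f P - deriv b P) := rfl
  rw [hQP] at hI
  have h1 : x 0 * ((-2 * QQ b f (ss x) P * x 0 + 2 * √(MM b f (ss x) P) * x 1) / ss x)
      + x 1 * ((-2 * QQ b f (ss x) P * x 1 - 2 * √(MM b f (ss x) P) * x 0) / ss x)
      = -2 * QQ b f (ss x) P := by
    field_simp
    rw [hsx]
    ring
  have h2 : -x 1 * ((-2 * QQ b f (ss x) P * x 0 + 2 * √(MM b f (ss x) P) * x 1) / ss x)
      + x 0 * ((-2 * QQ b f (ss x) P * x 1 - 2 * √(MM b f (ss x) P) * x 0) / ss x)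
      = -2 * √(MM b f (ss x) P) := by
    field_simp
    rw [hsx]
    ring
  generalize (-2 * QQ b f (ss x) P * x 0 + 2 * √(MM b f (ss x) P) * x 1) / ss x = G0 at *
  generalize (-2 * QQ b f (ss x) P * x 1 - 2 * √(MM b f (ss x) P) * x 0) / ss x = G1 at *
  generalize MS b f (ss x) P = mS at *
  generalize MP b f (ss x) P = mP at *
  generalize QQ b f (ss x) P = Q at *
  generalize √(MM b f (ss x) P) = r at *
  generalize deriv b P = B at *
  generalize deriv f P = F at *
  generalize wv b f x P = w at *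
  generalize ss x = s at *
  generalize x 0 = y at *
  generalize x 1 = z at *
  have hne : s ≠ 0 := hs0.ne'
  have hrn : r ≠ 0 := hr0.ne'
  have e : ∀ T : ℝ, T = (1 / s) * (2 * r + (1 / (2 * r)) * (mS * (2 * (y ^ 2 + z ^ 2))
      + mP * (y * G0 + z * G1)) + (F - B) * (-z * G0 + y * G1))
      - (r * (2 * (y ^ 2 + z ^ 2))) / s ^ 2 + B * (2 * r) → T = 0 := by
    intro T hT
    rw [hT, h1, h2, ← hsx]
    field_simp
    linear_combination hI
  apply e
  ring

end Pool.Agent.W743.GV
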