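import Mathlib
import Pool.Agent.W743.GV.Stm

/-! Assembly of the parts of project GV. -/

open Set
open scoped ContDiff

namespace Pool.Agent.W743.GV

/-- a smooth Gavrilov flow on U: steady Euler flow with velocity orthogonal to the pressure
gradient -/
def IsGavrilovFlow (U : Set E3) (u : E3 → E3) (p : E3 → ℝ) : Prop :=
  ContDiffOn ℝ ∞ u U ∧ ContDiffOn ℝ ∞ p U ∧
    ∀ x ∈ U, fderiv ℝ u x (u x) + gradient p x = 0 ∧
      (∑ i, (fderiv ℝ u x (EuclideanSpace.single i 1)) i) = 0 ∧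
      inner ℝ (u x) (gradient p x) = 0

/-- existence of a Gavrilov flow without critical points of the pressure which is not
axisymmetric -/
def FinalStm : Prop :=
  ∃ (U : Set E3) (u : E3 → E3) (p : E3 → ℝ), IsOpen U ∧ U.Nonempty ∧ IsConnected U ∧
    IsGavrilovFlow U u p ∧ (∀ x ∈ U, gradient p x ≠ 0) ∧ ¬ IsAxisymmetric U u p

theorem fin_of (hODE : S_ODE) (hPOT : S_POT) (hIMP : S_IMP) (hCU : S_CU) (hPDE : S_PDE)
    (hAXI : S_AXI) (hHEL : S_HEL) : FinalStm := by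
  obtain ⟨d, b, f, hD⟩ := hODE
  obtain ⟨Z, hZ⟩ := hPOT d b f hD
  obtain ⟨U, p, hS⟩ := hIMP d b f Z hD hZ
  refine ⟨U, fun y : E3 => VV b f y (p y), p, hS.op, hS.co.nonempty, hS.co, ?_, ?_, ?_⟩
  · refine ⟨hCU d b f U p hD hS, hS.cp, fun x hx => ?_⟩
    obtain ⟨h1, h2, h3, _⟩ := hPDE d b f U p hD hS x hx
    exact ⟨h1, h2, h3⟩
  · intro x hx
    exact (hPDE d b f U p hD hS x hx).2.2.2
  · intro h
    obtain ⟨c, n, hn, hc⟩ := hAXI U _ p hS.op (fun x hx => (hS.dp x hx).differentiableAt) h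
    exact hn (hHEL d b f U p hD hS c n hc)

end Pool.Agent.W743.GV
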