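import Mathlib
import Pool.Agent.W743.GV.Fin

/-! Statement of the final theorem of project GV with short definitions. -/

open Set
open scoped ContDiff

namespace Pool.Agent.W743.GV

noncomputable section

/-- the convective term: the derivative of u at x in the direction u(x) -/
def convective (u : E3 → E3) (x : E3) : E3 := fderiv ℝ u x (u x)

/-- the divergence of u at x -/
def divergence (u : E3 → E3) (x : E3) : ℝ :=
  ∑ i, (fderiv ℝ u x (EuclideanSpace.single i 1)) i

/-- the gradient of p at x -/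
def grad (p : E3 → ℝ) (x : E3) : E3 := gradient p x

/-- the steady Euler equations and orthogonality of velocity and pressure gradient at x -/
def GavrilovAt (u : E3 → E3) (p : E3 → ℝ) (x : E3) : Prop :=
  convective u x + grad p x = 0 ∧ divergence u x = 0 ∧ inner ℝ (u x) (grad p x) = 0

/-- action of the matrix A on the vector v -/
def act (A : Matrix (Fin 3) (Fin 3) ℝ) (v : E3) : E3 := Matrix.toEuclideanLin A v

/-- the affine map x -> c + A (x - c) -/
def rotAt (c : E3) (A : Matrix (Fin 3) (Fin 3) ℝ) (x : E3) : E3 := c + act A (x - c)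

/-- A is a rotation matrix fixing n; then rotAt c A is a rotation about the line c + R n, and all
rotations about this line are of this form -/
def IsRotFixing (n : E3) (A : Matrix (Fin 3) (Fin 3) ℝ) : Prop :=
  A ∈ Matrix.specialOrthogonalGroup (Fin 3) ℝ ∧ act A n = n

/-- (u,p) is symmetric on U under all rotations about the line c + R n -/
def SymmetricAbout (c n : E3) (U : Set E3) (u : E3 → E3) (p : E3 → ℝ) : Prop :=
  ∀ A, IsRotFixing n A → ∀ x ∈ U, rotAt c A x ∈ U →
    p (rotAt c A x) = p x ∧ u (rotAt c A x) = act A (u x)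

theorem fin2 (h : FinalStm) : ∃ (U : Set E3) (u : E3 → E3) (p : E3 → ℝ),
    IsOpen U ∧ IsConnected U ∧ ContDiffOn ℝ ∞ u U ∧ ContDiffOn ℝ ∞ p U ∧
      (∀ x ∈ U, GavrilovAt u p x) ∧ (∀ x ∈ U, grad p x ≠ 0) ∧
      ∀ c n : E3, n ≠ 0 → ¬ SymmetricAbout c n U u p := by
  obtain ⟨U, u, p, h1, _, h3, h4, h5, h6⟩ := h
  refine ⟨U, u, p, h1, h3, h4.1, h4.2.1, h4.2.2, h5, fun c n hn h => h6 ⟨c, n, hn, ?_⟩⟩
  intro A hA hAn x hx hx'
  exact h A ⟨hA, hAn⟩ x hx hx'

end

end Pool.Agent.W743.GV
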